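import Mathlib
import Pool.Agent.Work.MP_8cf4b7_co.LowerMain
import Pool.Agent.Work.MP_8cf4b7_co.Upper

/-!
The Ramsey upper density of the infinite factor `ω·F` is `f(m(F))` for every finite graph `F`.
-/

open Pool.Agent.RamseyFactor

namespace Pool.Agent.Results.MP_8cf4b7_co.RamseyDensity

theorem result {V : Type*} [Fintype V] [Nonempty V] (F : SimpleGraph V) :
    rho (omegaCopies F) = ffun (mExp F) :=
  le_antisymm (upper F) (lower F)

end Pool.Agent.Results.MP_8cf4b7_co.RamseyDensity
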